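import Pool.Agent.H58.SO.Basic

/-!
# Several orbits of vertices, row HTR: transfer of homomorphisms
-/

set_option autoImplicit false

namespace Pool.Agent.H96.SO

open Pool.Agent.H68.BP Pool.Agent.H58.SF Pool.Agent.H53.GC Pool.Agent.H53.NR Pool.Agent.H58.SO

theorem pf_HTR (hRLZ : T_RLZ) : T_HTR := by
  intro σ V X Θ V' X' Θ' _ _ M B B' 𝔸 𝔸' D m hm hb n 𝕏 hf
  obtain ⟨f, hf⟩ := hf
  obtain ⟨γ, hγ⟩ := hRLZ V' X' Θ' M B' (Fin n) (fun p p' => m (B.ct (f p) (f p'))) (by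
    intro p
    obtain ⟨y, -, hy⟩ := hm none (fun a => f (p a)) trivial
    exact ⟨y, hy⟩)
  refine ⟨γ, fun l x hx => ?_⟩
  obtain ⟨y, hy1, hy2⟩ := hm (some l) (fun a => f (x a)) (hf l x hx)
  refine hb l y (fun a => γ (x a)) hy1 (sameD_of_ct fun a b => ?_)
  rw [hγ]
  exact (hy2 a b).symm

end Pool.Agent.H96.SO
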